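import Pool.Agent.Lib.H8.CeConst

/-!
MP_418eb4_lc: sets on five generators and one-generated algebras with three constants have
incomparable isomorphism relations.
-/

namespace Pool.Agent.Results.MP_418eb4_lc.Yes

open Pool.Agent.Lib.H8 Arith CList CeAlg CeConst

abbrev T : Set ℕ := Set.Iio 3

theorem ker_ex {ρ : ℕ → ℕ} (h : Primrec ρ) :
    ∃ e, ∀ a, a ∈ W e ↔ ρ a.unpair.1 = ρ a.unpair.2 := by
  obtain ⟨s, -, hs⟩ := w_idx (β := ℕ) (A := fun q => ρ q.2.unpair.1 = ρ q.2.unpair.2)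
    (cs (ceq (h.to_comp.comp (u1.comp Computable.snd)) (h.to_comp.comp (u2.comp Computable.snd))))
  exact ⟨s 0, hs 0⟩

theorem ker_th {n : ℕ} {C : Set ℕ} {ρ : ℕ → ℕ} {e : ℕ}
    (h : ∀ a, a ∈ W e ↔ ρ a.unpair.1 = ρ a.unpair.2) (s t : Tm n C) :
    Th n C e s t ↔ ρ (enc s) = ρ (enc t) :=
  th_of_ker (π := fun s => ρ (enc s)) (fun _ _ => by simp [h]) s t

theorem isoA {e i : ℕ} : Iso 5 ∅ e i ↔ Nat.card (Quot (Th 5 ∅ e)) = Nat.card (Quot (Th 5 ∅ i)) :=
  ⟨fun ⟨φ, _⟩ => Nat.card_congr φ, fun h => ⟨(Finite.card_eq.1 h).some, fun c => c.2.elim⟩⟩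

theorem cardA (e : ℕ) : Nat.card (Quot (Th 5 ∅ e)) ∈ Finset.Icc 1 5 := by
  have : Nonempty (Quot (Th 5 ∅ e)) := ⟨Quot.mk _ (.inl 0)⟩
  exact Finset.mem_Icc.2 ⟨Nat.card_pos, (Nat.card_le_card_of_surjective _
    Quot.mk_surjective).trans (by simp)⟩

def c (j : Fin 3) : Tm 1 T := .inr ⟨j, j.2⟩

def P (e : ℕ) : Fin 4 → Prop := ![Th 1 T e (c 0) (c 1), Th 1 T e (c 0) (c 2), Th 1 T e (c 1) (c 2),
  Th 1 T e (.inl 0) (c 0) ∨ Th 1 T e (.inl 0) (c 1) ∨ Th 1 T e (.inl 0) (c 2)]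

theorem allT {p : T → Prop} : (∀ d, p d) ↔ ∀ j : Fin 3, p ⟨j, j.2⟩ :=
  ⟨fun h _ => h _, fun h d => h ⟨d.1, d.2⟩⟩

theorem exB (e : ℕ) : (Ex 1 T e).ncard = 0 ∧ P e 3 ∨ (Ex 1 T e).ncard = 1 ∧ ¬ P e 3 := by
  have a : Quot.mk _ (.inl 0) ∈ Ex 1 T e ↔ ¬ P e 3 := by
    simp only [Ex, Set.mem_ofPred_eq, allT, Ne, mk_eq, Fin.forall_fin_succ]
    simp [P, c]
  have b : ∀ q ∈ Ex 1 T e, q = Quot.mk _ (.inl 0) := fun q h => by
    obtain ⟨j | d, rfl⟩ := Quot.exists_rep q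
    · rw [Subsingleton.elim j 0]
    · exact absurd rfl (h d)
  by_cases h : P e 3
  · refine Or.inl ⟨?_, h⟩
    rw [Set.eq_empty_of_forall_notMem fun q k => a.1 (b q k ▸ k) h, Set.ncard_empty]
  · refine Or.inr ⟨?_, h⟩
    rw [Set.eq_singleton_iff_unique_mem.2 ⟨a.2 h, b⟩, Set.ncard_singleton]

theorem isoB {e i : ℕ} : Iso 1 T e i ↔ ∀ k, P e k ↔ P i k := by
  have := exB e
  have := exB i
  have r := fun e j => (th_eqv (n := 1) (C := T) (e := e)).refl (c j)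
  have s := fun e j k => @(th_eqv (n := 1) (C := T) (e := e)).symm (c j) (c k)
  rw [iso_iff]
  simp only [allT]
  change (∀ j k, Th 1 T e (c j) (c k) ↔ Th 1 T i (c j) (c k)) ∧ _ ↔ _
  constructor
  · rintro ⟨h, k⟩ j
    fin_cases j
    exacts [h 0 1, h 0 2, h 1 2, by change P e 3 ↔ P i 3; grind]
  · intro h
    have h0 : Th 1 T e (c 0) (c 1) ↔ Th 1 T i (c 0) (c 1) := h 0
    have h1 : Th 1 T e (c 0) (c 2) ↔ Th 1 T i (c 0) (c 2) := h 1
    have h2 : Th 1 T e (c 1) (c 2) ↔ Th 1 T i (c 1) (c 2) := h 2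
    have h3 := h 3
    refine ⟨fun j k => ?_, by grind⟩
    fin_cases j <;> fin_cases k <;> simp only [Fin.zero_eta, Fin.mk_one, Fin.reduceFinMk] <;> grind

theorem P_sig {h : ℕ → ℕ} (hh : Computable h) (k : Fin 4) : Sig 1 ℕ fun e => P (h e) k := by
  have t : ∀ s t : Tm 1 T, Sig 1 ℕ fun e => Th 1 T (h e) s t := fun s t =>
    (tn_sig (Primrec.nat_lt.comp Primrec.id (Primrec.const 3)).computablePred hh
      (Computable.const _) (Computable.const _)).of_eq fun _ => tn_iff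
  fin_cases k
  exacts [t _ _, t _ _, t _ _, (t _ _).or ((t _ _).or (t _ _))]

open Classical in
noncomputable def rk (e : ℕ) : ℕ := (if P e 3 then 1 else 0) +
  if P e 0 ∧ P e 1 then 2 else if P e 0 ∨ P e 1 ∨ P e 2 then 1 else 0

theorem rk_lt {e i : ℕ} (h : ∀ k, P e k → P i k) (h' : ¬ ∀ k, P e k ↔ P i k) : rk e < rk i := by
  have t : ∀ e, (P e 0 → P e 1 → P e 2) ∧ (P e 0 → P e 2 → P e 1) ∧ (P e 1 → P e 2 → P e 0) :=
    fun e => ⟨fun a b => th_eqv.trans (th_eqv.symm a) b, fun a b => th_eqv.trans a b,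
      fun a b => th_eqv.trans a (th_eqv.symm b)⟩
  have := t e
  have := t i
  have := h 0
  have := h 1
  have := h 2
  have := h 3
  simp only [Fin.forall_fin_succ] at h'
  simp only [rk]
  simp at h'
  grind

theorem result : ¬ Red (Iso 5 ∅) (Iso 1 (Set.Iio 3)) ∧ ¬ Red (Iso 1 (Set.Iio 3)) (Iso 5 ∅) := by
  constructor
  · rintro ⟨h, h1, h2⟩
    choose e he using fun j : ℕ => ker_ex (ρ := fun a => min a j)
      (Primrec.nat_min.comp Primrec.id (Primrec.const j))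
    have cd : ∀ j < 5, Nat.card (Quot (Th 5 ∅ (e j))) = j + 1 := fun j hj => by
      rw [← Nat.card_fin (j + 1)]
      refine Nat.card_eq_of_bijective (Quot.lift (fun s => ⟨min (enc s) j, by omega⟩)
        fun s t k => Fin.ext ((ker_th (ρ := fun a => min a j) (he j) s t).1 k)) ⟨fun q r => ?_, fun a => ?_⟩
      · obtain ⟨s, rfl⟩ := Quot.exists_rep q
        obtain ⟨t, rfl⟩ := Quot.exists_rep r
        exact fun k => mk_eq.2 ((ker_th (ρ := fun a => min a j) (he j) s t).2 (congrArg Fin.val k))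
      · exact ⟨Quot.mk _ (.inl ⟨a, by omega⟩), Fin.ext (by have := a.2; simp [enc]; omega)⟩
    have w : ∀ {a b}, W a = W b → ∀ k, P (h a) k ↔ P (h b) k := fun {a b} k =>
      isoB.1 ((h2 _ _).1 (isoA.2 (by unfold Th; rw [k])))
    have st : ∀ j < 4, rk (h (e (j + 1))) < rk (h (e j)) := fun j hj => by
      refine rk_lt (fun k p => rice (P_sig h1 k) (i := e (j + 1)) (fun a => ?_)
        (fun a l => (w l k).2 p) fun a l => (w l k).1) fun k => ?_
      · simp only [he]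
        omega
      · have := isoA.1 ((h2 _ _).2 (isoB.2 k))
        rw [cd _ (by omega), cd _ (by omega)] at this
        omega
    have : rk (h (e 0)) ≤ 3 := by
      unfold rk
      split_ifs <;> omega
    have := st 0 (by omega)
    have := st 1 (by omega)
    have := st 2 (by omega)
    have := st 3 (by omega)
    simp only [Nat.reduceAdd] at *
    omega
  · rintro ⟨h, -, h2⟩
    let L : Fin 6 → List ℕ := ![[0, 1, 2, 3], [0, 1, 1, 3], [0, 1, 2, 1], [0, 1, 2, 2],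
      [0, 1, 1, 1], [1, 1, 2, 3]]
    choose e he using fun j : Fin 6 =>
      ker_ex (ρ := fun a => (L j).getD a 0)
        ((Primrec.list_getD 0).comp (Primrec.const (L j)) Primrec.id)
    have ht := fun j => ker_th (n := 1) (C := T) (ρ := fun a => (L j).getD a 0) (he j)
    obtain ⟨i, -, j, -, l, k⟩ := Finset.exists_ne_map_eq_of_card_lt_of_maps_to
      (s := (Finset.univ : Finset (Fin 6))) (t := Finset.Icc 1 5) (by simp)
      (f := fun j => Nat.card (Quot (Th 5 ∅ (h (e j))))) fun j _ => cardA _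
    have := isoB.1 ((h2 _ _).2 (isoA.2 k))
    simp only [Fin.forall_fin_succ, P, ht] at this
    fin_cases i <;> fin_cases j <;> simp [L, c, enc] at this l

end Pool.Agent.Results.MP_418eb4_lc.Yes
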